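import Pool.Agent.J4H23.QT.Stm

/-! # Project QT (helper23), piece SCO (helper89): the word consists of steps and blocks -/

set_option autoImplicit false

open Finset

namespace Pool.Agent.J4H89.QT

open Pool.Agent.J4H23 Pool.Agent.J4H23.QT Pool.Agent.W639.RB

theorem isP_lp {m : ℕ} (j : Fin (m-1)) {t : ℝ} (h0 : 0 ≤ t) (h1 : t ≤ 1) : IsP (QT.lp j t) := by
  constructor
  · rintro ⟨b, i⟩
    unfold QT.lp
    simp only
    split_ifs
    · exact h0
    · linarith
    · exact le_rfl
  · unfold QT.lp
    rw [Fintype.sum_prod_type]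
    simp

theorem sc_steps {ι : Type} [Fintype ι] {B : Set (List (ι → ℝ))} {k : ℕ} {P : List (ι → ℝ)}
    (h : Sc B k P) (S : List (ι → ℝ)) (hS : ∀ p ∈ S, IsP p) : Sc B k (S ++ P) := by
  induction S with
  | nil => exact h
  | cons p S ih =>
    exact Sc.step p (hS p (by simp)) (ih fun q hq => hS q (by simp [hq]))

theorem sc_list {m L : ℕ} {ε : ℝ} (k : ℕ) : ∀ (Q : List (Fin (m-1) × ℝ)) (t : Fin k → ℕ),
    (∀ x ∈ Q, 0 ≤ x.2 ∧ x.2 ≤ 1) → (∀ j, t j + L ≤ Q.length) →
    (∀ j j', j < j' → t j + L ≤ t j') →
    (∀ j, ∀ x ∈ (Q.drop (t j)).take L, ε ≤ x.2 ∧ x.2 ≤ 1 - ε) →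
    (∀ j (a : Fin (m-1)), a ∈ ((Q.drop (t j)).take L).map Prod.fst) →
    Sc (Bl m L ε) k (Q.map fun x => QT.lp x.1 x.2) := by
  induction k with
  | zero =>
    intro Q t hQ _ _ _ _
    have h := sc_steps (B := Bl m L ε) Sc.nil (Q.map fun x => QT.lp x.1 x.2) (by
      intro p hp
      rw [List.mem_map] at hp
      obtain ⟨x, hx, rfl⟩ := hp
      exact isP_lp _ (hQ x hx).1 (hQ x hx).2)
    rwa [List.append_nil] at h
  | succ k ih =>
    intro Q t hQ hlen hord heps hall
    set s := t 0 with hs
    have e : Q = Q.take s ++ ((Q.drop s).take L ++ Q.drop (s + L)) := by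
      rw [← List.drop_drop, List.take_append_drop, List.take_append_drop]
    have h1 : Sc (Bl m L ε) k ((Q.drop (s + L)).map fun x => QT.lp x.1 x.2) := by
      refine ih (Q.drop (s + L)) (fun j => t j.succ - (s + L)) ?_ ?_ ?_ ?_ ?_
      · intro x hx
        exact hQ x (List.mem_of_mem_drop hx)
      · intro j
        have h2 := hlen j.succ
        have h3 := hord 0 j.succ (Fin.succ_pos j)
        rw [List.length_drop]
        omega
      · intro j j' hj
        have h2 := hord 0 j.succ (Fin.succ_pos j)
        have h3 := hord j.succ j'.succ (Fin.succ_lt_succ_iff.2 hj)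
        omega
      · intro j x hx
        have h2 := hord 0 j.succ (Fin.succ_pos j)
        rw [List.drop_drop, show s + L + (t j.succ - (s + L)) = t j.succ by omega] at hx
        exact heps j.succ x hx
      · intro j a
        have h2 := hord 0 j.succ (Fin.succ_pos j)
        rw [List.drop_drop, show s + L + (t j.succ - (s + L)) = t j.succ by omega]
        exact hall j.succ a
    have h2 : (Q.map fun x => QT.lp x.1 x.2) = (Q.take s).map (fun x => QT.lp x.1 x.2) ++
        (((Q.drop s).take L).map (fun x => QT.lp x.1 x.2) ++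
          (Q.drop (s + L)).map (fun x => QT.lp x.1 x.2)) := by
      rw [← List.map_append, ← List.map_append, ← e]
    rw [h2]
    refine sc_steps (Sc.block _ ?_ h1) _ ?_
    · refine ⟨(Q.drop s).take L, rfl, ?_, heps 0, hall 0⟩
      rw [List.length_take, List.length_drop]
      have := hlen 0
      omega
    · intro p hp
      rw [List.mem_map] at hp
      obtain ⟨x, hx, rfl⟩ := hp
      have := hQ x (List.mem_of_mem_take hx)
      exact isP_lp _ this.1 this.2

/-- **SCO** -/
theorem t_SCO : S_SCO := by
  intro m L ε hm hε n k c p t hp hlen hord heps hall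
  have e : (List.ofFn fun i => QT.lp (c i) (p i)) =
      (List.ofFn fun i => (c i, p i)).map (fun x => QT.lp x.1 x.2) := by
    rw [List.map_ofFn]
    rfl
  rw [e]
  refine sc_list k _ t ?_ ?_ hord ?_ ?_
  · intro x hx
    rw [List.mem_ofFn] at hx
    obtain ⟨i, rfl⟩ := hx
    exact hp i
  · intro j
    rw [List.length_ofFn]
    exact hlen j
  · intro j x hx
    rw [List.mem_iff_getElem] at hx
    obtain ⟨i, hi, rfl⟩ := hx
    rw [List.length_take, List.length_drop, List.length_ofFn] at hi
    rw [List.getElem_take, List.getElem_drop, List.getElem_ofFn]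
    exact heps j ⟨t j + i, by omega⟩ (by simp) (by simp only; omega)
  · intro j a
    obtain ⟨i, h1, h2, h3⟩ := hall j a
    rw [List.mem_map]
    refine ⟨(c i, p i), ?_, h3⟩
    rw [List.mem_iff_getElem]
    refine ⟨i - t j, ?_, ?_⟩
    · rw [List.length_take, List.length_drop, List.length_ofFn]
      omega
    · rw [List.getElem_take, List.getElem_drop, List.getElem_ofFn]
      have : (⟨t j + (↑i - t j), by omega⟩ : Fin n) = i := by
        apply Fin.ext
        simp only
        omega
      rw [this]

end Pool.Agent.J4H89.QT
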