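import Pool.Agent.J4H23.QT.Stm

/-! # Project QT (helper23), piece SEQ (helper89): sequences of almost extremal vectors -/

set_option autoImplicit false

open Filter Topology Finset

namespace Pool.Agent.J4H89.QT

open Pool.Agent.J4H23 Pool.Agent.J4H23.QT Pool.Agent.W705.JR Pool.Agent.W639.RB

theorem avg_lp {m : ℕ} (a : Fin (m-1)) (t : ℝ) (f : L2 (Submodule ℂ (VV m))) :
    avg (QT.lp a t) (fun l : Letter m => act (gg l)) f =
      t • sh (xx a) f + (1 - t) • sh ((xx a)⁻¹) f := by
  have h1 : (act (gg ((false, a) : Letter m)) : Equiv.Perm (Submodule ℂ (VV m))) = (xx a)⁻¹ := by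
    have h2 : ((false, a) : Letter m) = inv' (true, a) := rfl
    rw [h2, gg_inv', act_symm]
    rfl
  unfold avg QT.lp
  rw [Fintype.sum_prod_type, Fintype.sum_bool]
  simp only [ite_smul, zero_smul, Finset.sum_ite_eq', Finset.mem_univ, if_true, h1]
  rfl

section one

variable {X : Type} (σ : Equiv.Perm X) (f : L2 X) (t : ℝ)

/-- one averaging step -/
theorem step_norm : ‖t • sh σ f + (1 - t) • sh σ⁻¹ f‖ ^ 2 =
    ‖f‖ ^ 2 - t * (1 - t) * ‖f - sh (σ * σ) f‖ ^ 2 := by
  have h1 : ‖f - sh (σ * σ) f‖ = ‖sh σ f - sh σ⁻¹ f‖ := by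
    rw [← sh_norm σ (sh σ f - sh σ⁻¹ f), sh_sub, ← sh_mul, ← sh_mul, mul_inv_cancel, sh_one,
      norm_sub_rev]
  have h2 := avg_norm (ι := Bool) (E := L2 X) (fun b => if b then t else 1 - t) (by
    rw [Fintype.sum_bool]; simp) (fun b => if b then sh σ f else sh σ⁻¹ f)
  simp only [Fintype.sum_bool, if_true, Bool.false_eq_true, if_false, sh_norm, sub_self,
    norm_zero] at h2
  rw [h2, h1, norm_sub_rev (sh σ⁻¹ f) (sh σ f)]
  ring

theorem step_sub : t • sh σ f + (1 - t) • sh σ⁻¹ f - sh σ f =
    (1 - t) • (sh σ⁻¹ f - sh σ f) := by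
  module

theorem step_dist (h0 : 0 ≤ t) (h1 : t ≤ 1) :
    ‖t • sh σ f + (1 - t) • sh σ⁻¹ f - sh σ f‖ ≤ ‖f - sh (σ * σ) f‖ := by
  have h2 : ‖f - sh (σ * σ) f‖ = ‖sh σ⁻¹ f - sh σ f‖ := by
    rw [← sh_norm σ (sh σ⁻¹ f - sh σ f), sh_sub, ← sh_mul, ← sh_mul, mul_inv_cancel, sh_one]
  rw [step_sub, norm_smul, h2, Real.norm_of_nonneg (by linarith)]
  have := norm_nonneg (sh σ⁻¹ f - sh σ f)
  nlinarith

end one

theorem opr_le {m : ℕ} {ε : ℝ} (hε : 0 < ε) (c : List (Fin (m-1))) : ∀ (T : List ℝ)
    (f : L2 (Submodule ℂ (VV m))), (∀ t ∈ T, ε ≤ t ∧ t ≤ 1 - ε) →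
    ‖opr (fun l : Letter m => act (gg l)) (List.zipWith QT.lp c T) f‖ ≤ ‖f‖ := by
  induction c with
  | nil => intro T f _; simp [opr]
  | cons a c ih =>
    intro T f hT
    rcases T with _ | ⟨t, T⟩
    · simp [opr]
    · rw [List.zipWith_cons_cons]
      unfold opr
      rw [avg_lp]
      have h1 := ih T f (fun s hs => hT s (by simp [hs]))
      have h2 := hT t (by simp)
      refine le_trans ?_ h1
      have h3 := step_norm (xx a)
        (opr (fun l : Letter m => act (gg l)) (List.zipWith QT.lp c T) f) t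
      refine (sq_le_sq₀ (norm_nonneg _) (norm_nonneg _)).1 ?_
      rw [h3]
      have h4 : 0 ≤ t * (1 - t) := mul_nonneg (by linarith) (by linarith)
      have h5 := mul_nonneg h4 (sq_nonneg ‖opr (fun l : Letter m => act (gg l))
        (List.zipWith QT.lp c T) f - sh (xx a * xx a)
        (opr (fun l : Letter m => act (gg l)) (List.zipWith QT.lp c T) f)‖)
      linarith

/-- **SEQ** -/
theorem t_SEQ : S_SEQ := by
  intro m ε hε c
  induction c with
  | nil =>
    intro T F _ _ _ _
    refine ⟨?_, fun c1 c2 a h => ?_⟩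
    · have h1 : ∀ n, ‖opr (fun l : Letter m => act (gg l))
          (List.zipWith QT.lp ([] : List (Fin (m-1))) (T n)) (F n) -
          sh (wd ([] : List (Fin (m-1)))) (F n)‖ = 0 := by
        intro n
        have : wd ([] : List (Fin (m-1))) = 1 := rfl
        rw [this, sh_one]
        simp [opr]
      simp only [h1]
      exact tendsto_const_nhds
    · exact absurd h.symm (by simp)
  | cons a c ih =>
    intro T F hlen hT hF hlim
    have hcons : ∀ n, ∃ t T', T n = t :: T' := by
      intro n
      have h := hlen n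
      rcases hTn : T n with _ | ⟨t, T'⟩
      · rw [hTn] at h; simp at h
      · exact ⟨t, T', rfl⟩
    choose t T' hTT using hcons
    have hlen' : ∀ n, (T' n).length = c.length := by
      intro n
      have h := hlen n
      rw [hTT n] at h
      simpa using h
    have hT' : ∀ n, ∀ s ∈ T' n, ε ≤ s ∧ s ≤ 1 - ε := fun n s hs =>
      hT n s (by rw [hTT n]; simp [hs])
    have ht : ∀ n, ε ≤ t n ∧ t n ≤ 1 - ε := fun n => hT n (t n) (by rw [hTT n]; simp)
    set H : ℕ → L2 (Submodule ℂ (VV m)) := fun n =>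
      opr (fun l : Letter m => act (gg l)) (List.zipWith QT.lp c (T' n)) (F n) with hH
    have hopr : ∀ n, opr (fun l : Letter m => act (gg l)) (List.zipWith QT.lp (a :: c) (T n)) (F n) =
        t n • sh (xx a) (H n) + (1 - t n) • sh ((xx a)⁻¹) (H n) := by
      intro n
      rw [hTT n, List.zipWith_cons_cons]
      conv_lhs => unfold opr
      rw [avg_lp]
    have hH1 : ∀ n, ‖H n‖ ≤ 1 := by
      intro n
      have := opr_le hε c (T' n) (F n) (hT' n)
      rw [hF n] at this
      exact this
    have hsq : ∀ n, ‖opr (fun l : Letter m => act (gg l))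
        (List.zipWith QT.lp (a :: c) (T n)) (F n)‖ ^ 2 =
        ‖H n‖ ^ 2 - t n * (1 - t n) * ‖H n - sh (xx a * xx a) (H n)‖ ^ 2 := by
      intro n
      rw [hopr n]
      exact step_norm _ _ _
    set D : ℕ → ℝ := fun n => ‖H n - sh (xx a * xx a) (H n)‖ with hD
    have hD0 : ∀ n, 0 ≤ D n := fun n => norm_nonneg _
    have htt : ∀ n, ε ^ 2 ≤ t n * (1 - t n) := by
      intro n
      rw [pow_two]
      exact mul_le_mul (ht n).1 (by linarith [(ht n).2]) hε.le (by linarith [(ht n).1])
    have hle : ∀ n, ‖opr (fun l : Letter m => act (gg l))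
        (List.zipWith QT.lp (a :: c) (T n)) (F n)‖ ≤ ‖H n‖ := by
      intro n
      refine (sq_le_sq₀ (norm_nonneg _) (norm_nonneg _)).1 ?_
      rw [hsq n]
      have := mul_nonneg ((sq_nonneg ε).trans (htt n)) (sq_nonneg (D n))
      linarith
    have hHlim : Tendsto (fun n => ‖H n‖) atTop (𝓝 1) :=
      tendsto_of_tendsto_of_tendsto_of_le_of_le hlim tendsto_const_nhds hle hH1
    have hDlim : Tendsto D atTop (𝓝 0) := by
      have h1 : Tendsto (fun n => (‖H n‖ ^ 2 - ‖opr (fun l : Letter m => act (gg l))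
          (List.zipWith QT.lp (a :: c) (T n)) (F n)‖ ^ 2) / ε ^ 2) atTop (𝓝 0) := by
        have := ((hHlim.pow 2).sub (hlim.pow 2)).div_const (ε ^ 2)
        simpa using this
      have h2 : Tendsto (fun n => D n ^ 2) atTop (𝓝 0) := by
        refine squeeze_zero (fun n => sq_nonneg _) (fun n => ?_) h1
        rw [le_div_iff₀ (by positivity), hsq n]
        have h3 := mul_le_mul_of_nonneg_right (htt n) (sq_nonneg (D n))
        have h4 : D n ^ 2 = ‖H n - sh (xx a * xx a) (H n)‖ ^ 2 := rfl
        rw [← h4]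
        linarith
      have h3 := h2.sqrt
      simp only [Real.sqrt_sq (hD0 _), Real.sqrt_zero] at h3
      exact h3
    obtain ⟨ih1, ih2⟩ := ih T' F hlen' hT' hF hHlim
    refine ⟨?_, ?_⟩
    · have h1 : ∀ n, ‖opr (fun l : Letter m => act (gg l))
          (List.zipWith QT.lp (a :: c) (T n)) (F n) - sh (wd (a :: c)) (F n)‖ ≤
          D n + ‖H n - sh (wd c) (F n)‖ := by
        intro n
        have e1 : wd (a :: c) = xx a * wd c := by
          simp [wd]
        rw [hopr n, e1, sh_mul]
        have e2 : t n • sh (xx a) (H n) + (1 - t n) • sh (xx a)⁻¹ (H n) -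
            sh (xx a) (sh (wd c) (F n)) =
            (t n • sh (xx a) (H n) + (1 - t n) • sh (xx a)⁻¹ (H n) - sh (xx a) (H n)) +
            sh (xx a) (H n - sh (wd c) (F n)) := by
          rw [sh_sub]
          abel
        rw [e2]
        refine (norm_add_le _ _).trans (add_le_add ?_ (sh_norm _ _).le)
        exact step_dist _ _ _ (by linarith [(ht n).1]) (by linarith [(ht n).2])
      have h2 : Tendsto (fun n => D n + ‖H n - sh (wd c) (F n)‖) atTop (𝓝 0) := by
        have := hDlim.add ih1
        simpa using this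
      exact squeeze_zero (fun n => norm_nonneg _) h1 h2
    · intro c1 c2 b hc
      rcases c1 with _ | ⟨a1, c1⟩
      · rw [List.nil_append] at hc
        obtain ⟨rfl, rfl⟩ := List.cons_eq_cons.1 hc
        have h1 : ∀ n, ‖F n - sh ((wd c)⁻¹ * (xx a * xx a) * wd c) (F n)‖ ≤
            2 * ‖H n - sh (wd c) (F n)‖ + D n := by
          intro n
          set G := sh (wd c) (F n) with hG
          have e1 : ‖F n - sh ((wd c)⁻¹ * (xx a * xx a) * wd c) (F n)‖ =
              ‖G - sh (xx a * xx a) G‖ := by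
            rw [← sh_norm (wd c), sh_sub, ← sh_mul]
            congr 2
            rw [hG, ← sh_mul]
            congr 1
            group
          have e2 : G - sh (xx a * xx a) G = -(H n - G) + (H n - sh (xx a * xx a) (H n)) +
              sh (xx a * xx a) (H n - G) := by
            rw [sh_sub]
            abel
          rw [e1, e2]
          have h2 := norm_add_le (-(H n - G) + (H n - sh (xx a * xx a) (H n)))
            (sh (xx a * xx a) (H n - G))
          have h3 := norm_add_le (-(H n - G)) (H n - sh (xx a * xx a) (H n))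
          rw [sh_norm] at h2
          rw [norm_neg] at h3
          have h4 : ‖H n - sh (xx a * xx a) (H n)‖ = D n := rfl
          linarith
        have h2 : Tendsto (fun n => 2 * ‖H n - sh (wd c) (F n)‖ + D n) atTop (𝓝 0) := by
          have := (ih1.const_mul 2).add hDlim
          simpa using this
        exact squeeze_zero (fun n => norm_nonneg _) h1 h2
      · rw [List.cons_append] at hc
        obtain ⟨rfl, hc'⟩ := List.cons_eq_cons.1 hc
        exact ih2 c1 c2 b hc'

end Pool.Agent.J4H89.QT
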